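import Pool.Agent.Q163.WD.Base
import Pool.Agent.Results.MP_edb5be_nt.PointwiseErgodicTheorem
import Pool.Agent.Results.MP_2d22f3_nt.MultipleRecurrence

set_option autoImplicit false

/-!
# Ergodic theorems along the integers in wandering domains of `f₀`

Let `W` be the set of the integers of sign `s` in wandering domains of the entire function `f₀` of
Letherman, Schleicher and Wood, or any other set of integers which is completely invariant under `f₀`
(the basins of the integer cycles). The pointwise ergodic theorem holds along `W` for every measure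
preserving transformation and integrable function, and multiple ergodic averages of commuting
transformations along `W` have the same limits in `L²` as along all integers. No integer of sign `s`
lies in a wandering domain if almost none of the return times of one set of positive measure do.
-/

namespace Pool.Agent.Results.MP_071ec9_an.ErgodicAverages

open Filter Topology MeasureTheory
open Pool.Agent.H384R2.Fatou

/-- The entire function of Letherman, Schleicher and Wood; `f₀ n = T n` for every integer `n`, where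
`T` is the `3x+1` function. -/
noncomputable def f₀ (z : ℂ) : ℂ :=
  z / 2 + (z + 1 / 2) * ((1 - Complex.cos (Real.pi * z)) / 2) +
    1 / Real.pi * (1 / 2 - Complex.cos (Real.pi * z)) * Complex.sin (Real.pi * z)

/-- The set `S` of integers is completely invariant under `f₀`: an integer `n` is in `S` if and only if
`f₀ n` is. -/
def Invariant (S : Set ℤ) : Prop := ∀ n m : ℤ, f₀ (n : ℂ) = m → (n ∈ S ↔ m ∈ S)

/-- The integers whose Fatou component is a wandering domain of `f₀`. -/
def WanderingIntegers : Set ℤ := {n | IsWanderingDomain f₀ (FatouComponent f₀ n)}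

/-- The integers `n` in the Fatou set whose component is not a wandering domain and is attracted to
the cycle of the integer `a`, of period (dividing) `p`: all points `z` of the component satisfy
`f₀^(k+pm)(z) → a` as `m → ∞`, for some `k`. -/
def BasinIntegers (a : ℤ) (p : ℕ) : Set ℤ :=
  {n | (n : ℂ) ∈ FatouSet f₀ ∧ ¬ IsWanderingDomain f₀ (FatouComponent f₀ n) ∧
    ∃ k : ℕ, ∀ z ∈ FatouComponent f₀ n,
      Tendsto (fun m : ℕ => f₀^[k + p * m] z) atTop (𝓝 (a : ℂ))}

/-- Among the integers of sign `s` the set `S` has natural density `δ`. -/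
def HasDensity (s : ℤ) (S : Set ℤ) (δ : ℝ) : Prop :=
  Tendsto (fun N : ℕ => ({n : ℤ | 0 < s * n ∧ s * n ≤ N ∧ n ∈ S}.ncard : ℝ) / N) atTop (𝓝 δ)

/-- `1` if `s n ∈ S`, and `0` otherwise -/
noncomputable def ind (s : ℤ) (S : Set ℤ) (n : ℕ) : ℝ := S.indicator (fun _ => (1 : ℝ)) (s * n)

/-- The sum of `w n` over the `n` in `[1, N]` with `s n ∈ S`. -/
noncomputable def sumAlong (s : ℤ) (S : Set ℤ) (N : ℕ) (w : ℕ → ℝ) : ℝ :=
  ∑ n ∈ Finset.Icc 1 N, ind s S n * w n

/-- The number of the `n` in `[1, N]` with `s n ∈ S`. -/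
noncomputable def number (s : ℤ) (S : Set ℤ) (N : ℕ) : ℕ :=
  {n : ℕ | 1 ≤ n ∧ n ≤ N ∧ s * (n : ℤ) ∈ S}.ncard

/-- `k` commuting invertible measure preserving transformations of a probability space `X` -/
structure System (k : ℕ) (X : Type) [MeasurableSpace X] where
  μ : Measure X
  prob : IsProbabilityMeasure μ
  T : Fin k → X ≃ᵐ X
  mp : ∀ i, MeasurePreserving (T i) μ μ
  comm : ∀ i j x, T i (T j x) = T j (T i x)

/-- the product `f 1 (T 1 ^ n x) ⋯ f k (T k ^ n x)` -/
noncomputable def prod {k : ℕ} {X : Type} [MeasurableSpace X] (Y : System k X) (f : Fin k → X → ℂ)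
    (n : ℕ) (x : X) : ℂ := ∏ i, f i ((Y.T i)^[n] x)

/-! ### proofs -/

open Pool.Agent.Q163.WD

theorem wandering_inv : Invariant WanderingIntegers := WI_cinv

theorem basin_inv {a : ℤ} {p : ℕ} (hp : 0 < p) (ha : f₀^[p] (a : ℂ) = a) :
    Invariant (BasinIntegers a p) := BI_cinv hp ha

theorem inv_P {S : Set ℤ} (hS : Invariant S) : MP_edb5be_nt.PointwiseErgodicTheorem.Invariant S :=
  cinv_iff.1 hS

theorem inv_M {S : Set ℤ} (hS : Invariant S) : MP_2d22f3_nt.MultipleRecurrence.Invariant S :=
  fun x => cinv_C hS x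

/-- the same system -/
def conv {k : ℕ} {X : Type} [MeasurableSpace X] (Y : System k X) :
    MP_2d22f3_nt.MultipleRecurrence.System k X := ⟨Y.μ, Y.prob, Y.T, Y.mp, Y.comm⟩

theorem inv_compl {S : Set ℤ} (hS : Invariant S) : Invariant Sᶜ :=
  fun n m h => not_congr (hS n m h)

/-- **The theorem.** Let `s = 1` or `s = -1`.
(0) The set of the integers in wandering domains of `f₀` and the sets of the integers in the basins of the
integer cycles are completely invariant under `f₀`.
(1) THE POINTWISE ERGODIC THEOREM. For every measure preserving transformation `R` of a probability space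
and every integrable function `f`, for almost every point `x`: (a) the sum of `f (R ^ n x)` over the
`n ≤ N` with `s n ∈ S` is `δ` times the sum over all `n ≤ N`, up to `ε N`, for `N ≥ N₀(ε, x)` and ALL sets
`S` of integers which are completely invariant under `f₀`, of density `δ` among the integers of sign `s`
(the density exists); (b) the averages of `f (R ^ n x)` over the `n ≤ N` with `s n ∈ S` converge to the
conditional expectation of `f`, for ALL completely invariant `S` with an element of sign `s`; in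
particular for the set of the integers in wandering domains, if there are any of sign `s`.
(2) MULTIPLE AVERAGES. For all `k` and `ε > 0`, if `N` is large, then for every completely invariant set
`S`, of density `δ`, all commuting invertible measure preserving transformations `T 1, ..., T k` of a
probability space and all measurable functions `f 1, ..., f k` with values in the unit disc the mean over
`n ≤ N` of `(1_S(s n) - δ) f 1 (T 1 ^ n x) ⋯ f k (T k ^ n x)` has a norm at most `ε` in `L²`.
(3) If for one invertible measure preserving transformation and one set `A` of positive measure there are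
infinitely many `N` such that only `o(N)` of the `n ≤ N` for which `A ∩ T ^ (-n) A` has positive measure
are such that `s n` lies in a wandering domain, then no integer of sign `s` lies in a wandering domain.
(4) If for one ergodic transformation `R` and one set `A` of positive measure, with positive probability
in `x`, there are infinitely many `N` such that only `o(N)` of the `n ≤ N` with `R ^ n x ∈ A` are such that
`s n` lies in a wandering domain, then no integer of sign `s` lies in a wandering domain. -/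
theorem result (s : ℤ) (hs : s = 1 ∨ s = -1) :
    (Invariant WanderingIntegers ∧
      ∀ (a : ℤ) (p : ℕ), 0 < p → f₀^[p] (a : ℂ) = a → Invariant (BasinIntegers a p)) ∧
    (∀ (X : Type) [MeasurableSpace X] (μ : Measure X) [IsProbabilityMeasure μ] (R : X → X)
      (f : X → ℝ), MeasurePreserving R μ μ → Integrable f μ → ∀ᵐ x ∂μ,
      (∀ ε : ℝ, 0 < ε → ∃ N₀ : ℕ, ∀ S : Set ℤ, Invariant S → ∃ δ : ℝ, HasDensity s S δ ∧
        ∀ N : ℕ, N₀ ≤ N →
          |sumAlong s S N (fun n => f (R^[n] x)) - δ * ∑ n ∈ Finset.Icc 1 N, f (R^[n] x)| ≤ ε * N) ∧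
      (∀ S : Set ℤ, Invariant S → (∃ y ∈ S, 0 < s * y) →
        Tendsto (fun N : ℕ => sumAlong s S N (fun n => f (R^[n] x)) / number s S N) atTop
          (𝓝 ((μ[f | MeasurableSpace.invariants R]) x)))) ∧
    (∀ (k : ℕ) (ε : ℝ), 0 < ε → ∃ N₀ : ℕ, ∀ S : Set ℤ, Invariant S → ∃ δ : ℝ, HasDensity s S δ ∧
      ∀ N : ℕ, N₀ ≤ N → ∀ (X : Type) [MeasurableSpace X] (Y : System k X) (f : Fin k → X → ℂ),
        (∀ i, Measurable (f i) ∧ ∀ x, ‖f i x‖ ≤ 1) →
          ∫ x, ‖(∑ n ∈ Finset.Icc 1 N, ((ind s S n - δ : ℝ) : ℂ) * prod Y f n x) / N‖ ^ 2 ∂Y.μ ≤ ε ^ 2) ∧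
    (∀ (ψ : ℕ → ℝ), Tendsto ψ atTop (𝓝 0) → ∀ (X : Type) [MeasurableSpace X] (Y : System 1 X) (A : Set X),
      MeasurableSet A → 0 < Y.μ A →
      (∃ᶠ N : ℕ in atTop, ({n : ℕ | 1 ≤ n ∧ n ≤ N ∧ 0 < Y.μ (A ∩ {x | (Y.T 0)^[n] x ∈ A}) ∧
        s * (n : ℤ) ∈ WanderingIntegers}.ncard : ℝ) ≤ ψ N * N) →
      ∀ x : ℤ, 0 < s * x → ¬ IsWanderingDomain f₀ (FatouComponent f₀ x)) ∧
    (∀ (ψ : ℕ → ℝ), Tendsto ψ atTop (𝓝 0) → ∀ (X : Type) [MeasurableSpace X] (μ : Measure X)
      [IsProbabilityMeasure μ] (R : X → X) (A : Set X), Ergodic R μ → MeasurableSet A → 0 < μ A →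
      (¬ ∀ᵐ x ∂μ, ¬ ∃ᶠ N : ℕ in atTop,
        ({n : ℕ | 1 ≤ n ∧ n ≤ N ∧ s * (n : ℤ) ∈ WanderingIntegers ∧ R^[n] x ∈ A}.ncard : ℝ) ≤ ψ N * N) →
      ∀ x : ℤ, 0 < s * x → ¬ IsWanderingDomain f₀ (FatouComponent f₀ x)) := by
  obtain ⟨hp, -⟩ := MP_edb5be_nt.PointwiseErgodicTheorem.result
  obtain ⟨-, hp2, -, hp4⟩ := hp s hs
  obtain ⟨hm, -⟩ := MP_2d22f3_nt.MultipleRecurrence.result
  obtain ⟨hm1, -, hm3⟩ := hm s hs
  refine ⟨⟨wandering_inv, fun a p hp ha => basin_inv hp ha⟩, ?_, ?_, ?_, ?_⟩
  · intro X _ μ _ R f hR hf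
    filter_upwards [hp2 X μ R f hR hf] with x hx
    refine ⟨fun ε hε => ?_, fun S hS hne => hx.2 S (inv_P hS) hne⟩
    obtain ⟨N₀, h⟩ := hx.1 ε hε
    exact ⟨N₀, fun S hS => h S (inv_P hS)⟩
  · intro k ε hε
    obtain ⟨N₀, h⟩ := hm1 k ε hε
    refine ⟨N₀, fun S hS => ?_⟩
    obtain ⟨δ, hδ, h2⟩ := h S (inv_M hS)
    exact ⟨δ, hδ, fun N hN X _ Y f hf => (h2 N hN X (conv Y)).1 f hf⟩
  · intro ψ hψ X _ Y A hA hpos h x hx
    have h1 := (hm3 WanderingIntegersᶜ (inv_M (inv_compl wandering_inv)) ψ hψ).2 X (conv Y) A hA hpos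
    refine h1 (h.mono fun N hN => ?_) x hx
    refine le_trans (le_of_eq ?_) hN
    congr 2
    ext n
    simp only [Set.mem_ofPred_eq]
    refine and_congr_right fun _ => and_congr_right fun _ => and_congr ?_ ?_
    · haveI := Y.prob
      unfold MP_2d22f3_nt.MultipleRecurrence.System.ret Measure.real conv
      have e1 : {x | ∀ i : Fin 1, (Y.T i)^[n] x ∈ A} = {x | (Y.T 0)^[n] x ∈ A} := by
        ext y
        simp only [Set.mem_ofPred_eq]
        exact ⟨fun h => h 0, fun h i => by rw [Subsingleton.elim i 0]; exact h⟩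
      rw [e1, ENNReal.toReal_pos_iff]
      exact ⟨fun h => h.1, fun h => ⟨h, measure_lt_top _ _⟩⟩
    · exact not_not
  · intro ψ hψ X _ μ _ R A hR hA hpos h x hx
    exact hp4 WanderingIntegers (inv_P wandering_inv)
      ⟨X, inferInstance, μ, R, A, ψ, inferInstance, hR, hA, hpos, hψ, h⟩ x hx

end Pool.Agent.Results.MP_071ec9_an.ErgodicAverages
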