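import Pool.Agent.Q163.WD.Base
import Pool.Agent.Results.MP_d02c56_nt.AdditiveFunctions
import Pool.Agent.Results.MP_d02c56_nt.LargePrimeFactors

set_option autoImplicit false

/-!
# The prime factors of the integers in wandering domains of `f₀`

Let `W` be the set of the integers of sign `s` in wandering domains of the entire function `f₀` of
Letherman, Schleicher and Wood, or any other set of integers which is completely invariant under `f₀`
(the basins of the integer cycles). Membership of `s n` in `W` is asymptotically independent of the values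
of real additive functions at `n`, in arbitrary intervals, and of the `k` largest prime factors of `n`.
No integer of sign `s` lies in a wandering domain if almost no `n` in one such test set does.
-/

namespace Pool.Agent.Results.MP_071ec9_an.PrimeFactors

open Filter Topology
open Pool.Agent.H384R2.Fatou

/-- The entire function of Letherman, Schleicher and Wood; `f₀ n = T n` for every integer `n`, where
`T` is the `3x+1` function. -/
noncomputable def f₀ (z : ℂ) : ℂ :=
  z / 2 + (z + 1 / 2) * ((1 - Complex.cos (Real.pi * z)) / 2) +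
    1 / Real.pi * (1 / 2 - Complex.cos (Real.pi * z)) * Complex.sin (Real.pi * z)

/-- The set `S` of integers is completely invariant under `f₀`: an integer `n` is in `S` if and only if
`f₀ n` is. -/
def Invariant (S : Set ℤ) : Prop := ∀ n m : ℤ, f₀ (n : ℂ) = m → (n ∈ S ↔ m ∈ S)

/-- The integers whose Fatou component is a wandering domain of `f₀`. -/
def WanderingIntegers : Set ℤ := {n | IsWanderingDomain f₀ (FatouComponent f₀ n)}

/-- The integers `n` in the Fatou set whose component is not a wandering domain and is attracted to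
the cycle of the integer `a`, of period (dividing) `p`: all points `z` of the component satisfy
`f₀^(k+pm)(z) → a` as `m → ∞`, for some `k`. -/
def BasinIntegers (a : ℤ) (p : ℕ) : Set ℤ :=
  {n | (n : ℂ) ∈ FatouSet f₀ ∧ ¬ IsWanderingDomain f₀ (FatouComponent f₀ n) ∧
    ∃ k : ℕ, ∀ z ∈ FatouComponent f₀ n,
      Tendsto (fun m : ℕ => f₀^[k + p * m] z) atTop (𝓝 (a : ℂ))}

/-- Among the integers of sign `s` the set `S` has natural density `δ`. -/
def HasDensity (s : ℤ) (S : Set ℤ) (δ : ℝ) : Prop :=
  Tendsto (fun N : ℕ => ({n : ℤ | 0 < s * n ∧ s * n ≤ N ∧ n ∈ S}.ncard : ℝ) / N) atTop (𝓝 δ)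

/-- `exp (2 π i θ)` -/
noncomputable def e (θ : ℝ) : ℂ := Complex.exp (2 * Real.pi * θ * Complex.I)

/-- A multiplicative function with values in the closed unit disc. -/
def Multiplicative (g : ℕ → ℂ) : Prop :=
  (∀ n, ‖g n‖ ≤ 1) ∧ ∀ m n : ℕ, Nat.Coprime m n → g (m * n) = g m * g n

/-- A real additive function. -/
def Additive (f : ℕ → ℝ) : Prop := ∀ m n : ℕ, Nat.Coprime m n → f (m * n) = f m + f n

/-- The integers `n` with `f i n ∈ I i` for all `i`. -/
def Box {d : ℕ} (f : Fin d → ℕ → ℝ) (I : Fin d → Set ℝ) : Set ℕ := {n | ∀ i, f i n ∈ I i}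

/-- The `k` largest prime factors of `n`, with multiplicity, in decreasing order (all prime factors, if
`n` has fewer than `k`). -/
def top (k n : ℕ) : List ℕ := n.primeFactorsList.reverse.take k

/-- The number of the `1 ≤ n ≤ N` in `E` with `s n ∈ S`. -/
noncomputable def Count (s : ℤ) (N : ℕ) (S : Set ℤ) (E : Set ℕ) : ℕ :=
  {n : ℕ | 1 ≤ n ∧ n ≤ N ∧ n ∈ E ∧ s * n ∈ S}.ncard

/-! ### proofs -/

open Pool.Agent.Q163.WD

theorem wandering_inv : Invariant WanderingIntegers := WI_cinv

theorem basin_inv {a : ℤ} {p : ℕ} (hp : 0 < p) (ha : f₀^[p] (a : ℂ) = a) :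
    Invariant (BasinIntegers a p) := BI_cinv hp ha

theorem inv_A {S : Set ℤ} (hS : Invariant S) : MP_d02c56_nt.AdditiveFunctions.Invariant S :=
  fun x => cinv_C hS x

theorem inv_L {S : Set ℤ} (hS : Invariant S) : MP_d02c56_nt.LargePrimeFactors.Invariant S :=
  fun x => cinv_C hS x

theorem inv_compl {S : Set ℤ} (hS : Invariant S) : Invariant Sᶜ :=
  fun n m h => not_congr (hS n m h)

open scoped Classical in
/-- **The theorem.** Let `s = 1` or `s = -1`.
(0) The set of the integers in wandering domains of `f₀` and the sets of the integers in the basins of the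
integer cycles are completely invariant under `f₀`.
(1) For all `d` and `ε > 0`, if `N` is large, then for every completely invariant set `S`, of density `δ`
among the integers of sign `s` (the density exists), all real additive functions `f 1, ..., f d`, all
intervals `I 1, ..., I d`, every multiplicative function `g` with values in the unit disc and every real
`α` the sum of `(1_S(s n) - δ) g(n) exp (2 π i α n)` over the `n ≤ N` with `f i n ∈ I i` for all `i` is at
most `ε N` in absolute value; so the number of the `n ≤ N` with `s n ∈ S` and `f i n ∈ I i` for all `i` is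
`δ` times the number of the `n ≤ N` with `f i n ∈ I i` for all `i`, up to `ε N`.
(2) For all `k` and `ε > 0`, if `N` is large, then for every completely invariant set `S`, of density `δ`,
every `g` and `α` as in (1) and EVERY function `Φ` with values in the unit disc the sum of
`(1_S(s n) - δ) g(n) exp (2 π i α n) Φ(l)` over `n ≤ N`, where `l` is the list of the `k` largest prime
factors of `n`, is at most `ε N` in absolute value; so for every set `A` of lists the number of the
`n ≤ N` with `s n ∈ S` and `l ∈ A` is `δ` times the number of the `n ≤ N` with `l ∈ A`, up to `ε N`.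
(3) If there are additive functions and intervals (which may depend on `N`) such that for infinitely many
`N` at least `κ N` of the `n ≤ N` satisfy `f i n ∈ I i` for all `i`, and only `o(N)` of these are such that
`s n` lies in a wandering domain, then no integer of sign `s` lies in a wandering domain.
(4) The same with the condition that the list of the `k` largest prime factors of `n` is in a set `A N`
of lists. -/
theorem result (s : ℤ) (hs : s = 1 ∨ s = -1) :
    (Invariant WanderingIntegers ∧
      ∀ (a : ℤ) (p : ℕ), 0 < p → f₀^[p] (a : ℂ) = a → Invariant (BasinIntegers a p)) ∧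
    (∀ (d : ℕ) (ε : ℝ), 0 < ε → ∃ N₀ : ℕ, ∀ S : Set ℤ, Invariant S → ∃ δ : ℝ, HasDensity s S δ ∧
      ∀ N : ℕ, N₀ ≤ N → ∀ f : Fin d → ℕ → ℝ, (∀ i, Additive (f i)) →
        ∀ I : Fin d → Set ℝ, (∀ i, (I i).OrdConnected) →
        (∀ g : ℕ → ℂ, Multiplicative g → ∀ α : ℝ,
          ‖∑ n ∈ Finset.Icc 1 N, if n ∈ Box f I then
            ((S.indicator (fun _ => (1 : ℝ)) (s * n) - δ : ℝ) : ℂ) * g n * e (α * n) else 0‖ ≤ ε * N) ∧
        |(Count s N S (Box f I) : ℝ) - δ * Count s N Set.univ (Box f I)| ≤ ε * N) ∧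
    (∀ (k : ℕ) (ε : ℝ), 0 < ε → ∃ N₀ : ℕ, ∀ S : Set ℤ, Invariant S →
      ∃ δ : ℝ, HasDensity s S δ ∧ ∀ N : ℕ, N₀ ≤ N →
        (∀ g : ℕ → ℂ, Multiplicative g → ∀ α : ℝ, ∀ Φ : List ℕ → ℂ, (∀ l, ‖Φ l‖ ≤ 1) →
          ‖∑ n ∈ Finset.Icc 1 N, ((S.indicator (fun _ => (1 : ℝ)) (s * n) - δ : ℝ) : ℂ) * g n * e (α * n) *
            Φ (top k n)‖ ≤ ε * N) ∧
        ∀ A : Set (List ℕ), |(Count s N S {n | top k n ∈ A} : ℝ) -
          δ * Count s N Set.univ {n | top k n ∈ A}| ≤ ε * N) ∧
    (∀ (d : ℕ) (f : ℕ → Fin d → ℕ → ℝ), (∀ N i, Additive (f N i)) →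
      ∀ I : ℕ → Fin d → Set ℝ, (∀ N i, (I N i).OrdConnected) →
      ∀ (κ : ℝ) (ψ : ℕ → ℝ), 0 < κ → Tendsto ψ atTop (𝓝 0) →
      (∃ᶠ N : ℕ in atTop, κ * N ≤ Count s N Set.univ (Box (f N) (I N)) ∧
        (Count s N WanderingIntegers (Box (f N) (I N)) : ℝ) ≤ ψ N * N) →
      ∀ x : ℤ, 0 < s * x → ¬ IsWanderingDomain f₀ (FatouComponent f₀ x)) ∧
    (∀ (k : ℕ) (A : ℕ → Set (List ℕ)) (κ : ℝ) (ψ : ℕ → ℝ), 0 < κ → Tendsto ψ atTop (𝓝 0) →
      (∃ᶠ N : ℕ in atTop, κ * N ≤ Count s N Set.univ {n | top k n ∈ A N} ∧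
        (Count s N WanderingIntegers {n | top k n ∈ A N} : ℝ) ≤ ψ N * N) →
      ∀ x : ℤ, 0 < s * x → ¬ IsWanderingDomain f₀ (FatouComponent f₀ x)) := by
  obtain ⟨h1, -, h3⟩ := MP_d02c56_nt.AdditiveFunctions.result s hs
  obtain ⟨-, l2, l3⟩ := MP_d02c56_nt.LargePrimeFactors.result s hs
  refine ⟨⟨wandering_inv, fun a p hp ha => basin_inv hp ha⟩, ?_, ?_, ?_, ?_⟩
  · intro d ε hε
    obtain ⟨N₀, h⟩ := h1 d ε hε
    exact ⟨N₀, fun S hS => h S (inv_A hS)⟩
  · intro k ε hε
    obtain ⟨N₀, h⟩ := l2 k ε hε
    exact ⟨N₀, fun S hS => h S (inv_L hS)⟩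
  · intro d f hf I hI κ ψ hκ hψ h
    have h4 := h3 WanderingIntegersᶜ (inv_A (inv_compl wandering_inv)) d f hf I hI κ ψ hκ hψ
    rw [compl_compl] at h4
    exact h4 h
  · intro k A κ ψ hκ hψ h
    have h4 := l3 WanderingIntegersᶜ (inv_L (inv_compl wandering_inv)) k A κ ψ hκ hψ
    rw [compl_compl] at h4
    exact h4 h

end Pool.Agent.Results.MP_071ec9_an.PrimeFactors
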