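import Pool.Agent.Q163.WD.Base
import Pool.Agent.Results.MP_2d22f3_nt.BombieriVinogradov
import Pool.Agent.Results.MP_edb5be_nt.AlmostAllClasses

set_option autoImplicit false

/-!
# The integers in wandering domains of `f₀` in residue classes to large moduli

Sets of integers which are completely invariant under the entire function `f₀` of Letherman, Schleicher
and Wood, such as the set of the integers in wandering domains and the sets of the integers in the basins
of the integer cycles, are equidistributed in residue classes to large moduli: a theorem of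
Bombieri-Vinogradov type beyond the square root, the Titchmarsh divisor problem, and a theorem of
Barban-Davenport-Halberstam type for moduli up to a small multiple of `N`. If some integer lies in a
wandering domain, then almost all residue classes to almost all moduli `q` contain an integer
`x`, `|x| ≤ K q`, in a wandering domain.
-/

namespace Pool.Agent.Results.MP_071ec9_an.ResidueClasses

open Filter Topology
open Pool.Agent.H384R2.Fatou

/-- The entire function of Letherman, Schleicher and Wood; `f₀ n = T n` for every integer `n`, where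
`T` is the `3x+1` function. -/
noncomputable def f₀ (z : ℂ) : ℂ :=
  z / 2 + (z + 1 / 2) * ((1 - Complex.cos (Real.pi * z)) / 2) +
    1 / Real.pi * (1 / 2 - Complex.cos (Real.pi * z)) * Complex.sin (Real.pi * z)

/-- The set `S` of integers is completely invariant under `f₀`: an integer `n` is in `S` if and only if
`f₀ n` is. -/
def Invariant (S : Set ℤ) : Prop := ∀ n m : ℤ, f₀ (n : ℂ) = m → (n ∈ S ↔ m ∈ S)

/-- The integers whose Fatou component is a wandering domain of `f₀`. -/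
def WanderingIntegers : Set ℤ := {n | IsWanderingDomain f₀ (FatouComponent f₀ n)}

/-- The integers `n` in the Fatou set whose component is not a wandering domain and is attracted to
the cycle of the integer `a`, of period (dividing) `p`: all points `z` of the component satisfy
`f₀^(k+pm)(z) → a` as `m → ∞`, for some `k`. -/
def BasinIntegers (a : ℤ) (p : ℕ) : Set ℤ :=
  {n | (n : ℂ) ∈ FatouSet f₀ ∧ ¬ IsWanderingDomain f₀ (FatouComponent f₀ n) ∧
    ∃ k : ℕ, ∀ z ∈ FatouComponent f₀ n,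
      Tendsto (fun m : ℕ => f₀^[k + p * m] z) atTop (𝓝 (a : ℂ))}

/-- The number of the `1 ≤ n ≤ N`, `n ≡ a` modulo `q`, with `s n ∈ S`. -/
noncomputable def count (s : ℤ) (S : Set ℤ) (N q : ℕ) (a : ℤ) : ℕ :=
  {n : ℕ | 1 ≤ n ∧ n ≤ N ∧ (n : ℤ) ≡ a [ZMOD q] ∧ s * (n : ℤ) ∈ S}.ncard

/-- The pairs `(q, a)`, `Q ≤ q < 2 Q`, `0 ≤ a < q`, such that no `1 ≤ n ≤ X` with `n ≡ a` modulo `q`
satisfies `s n ∈ S`. -/
def Missed (s : ℤ) (S : Set ℤ) (X Q : ℕ) : Set (ℕ × ℕ) :=
  {p : ℕ × ℕ | Q ≤ p.1 ∧ p.1 < 2 * Q ∧ p.2 < p.1 ∧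
    ∀ n : ℕ, 1 ≤ n → n ≤ X → (n : ℤ) ≡ p.2 [ZMOD p.1] → s * (n : ℤ) ∉ S}

/-! ### proofs -/

open Pool.Agent.Q163.WD

theorem inv_iff {S : Set ℤ} : Invariant S ↔ CInv S := Iff.rfl

theorem wandering_inv : Invariant WanderingIntegers := WI_cinv

theorem basin_inv {a : ℤ} {p : ℕ} (hp : 0 < p) (ha : f₀^[p] (a : ℂ) = a) :
    Invariant (BasinIntegers a p) := BI_cinv hp ha

theorem inv_T {S : Set ℤ} (hS : Invariant S) : MP_edb5be_nt.AlmostAllClasses.Invariant S :=
  cinv_iff.1 hS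

/-- the property of the positive integers given by an invariant set -/
theorem inv_nat {S : Set ℤ} (hS : Invariant S) :
    MP_2d22f3_nt.BombieriVinogradov.Invariant (fun n : ℕ => (n : ℤ) ∈ S) := by
  intro n _
  have h := cinv_C hS (n : ℤ)
  unfold MP_2d22f3_nt.BombieriVinogradov.T
  by_cases hn : n % 2 = 0
  · rw [if_pos hn]
    rw [if_pos (by omega)] at h
    have e : ((n / 2 : ℕ) : ℤ) = (n : ℤ) / 2 := by omega
    show (n : ℤ) ∈ S ↔ ((n / 2 : ℕ) : ℤ) ∈ S
    rw [e]; exact h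
  · rw [if_neg hn]
    rw [if_neg (by omega)] at h
    have e : ((3 * n + 1 : ℕ) : ℤ) = 3 * (n : ℤ) + 1 := by omega
    show (n : ℤ) ∈ S ↔ ((3 * n + 1 : ℕ) : ℤ) ∈ S
    rw [e]; exact h

theorem count_one_eq (S : Set ℤ) (M q : ℕ) (a : ℤ) :
    MP_2d22f3_nt.BombieriVinogradov.count (fun n : ℕ => (n : ℤ) ∈ S) M q a = count 1 S M q a := by
  unfold MP_2d22f3_nt.BombieriVinogradov.count count
  simp only [one_mul]

theorem count_eq {s : ℤ} (hs : s = 1 ∨ s = -1) (S : Set ℤ) (N q : ℕ) (a : ℤ) :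
    MP_edb5be_nt.AlmostAllClasses.count S s N q a = count s S N q a := by
  have hss : ∀ x : ℤ, s * (s * x) = x := by intro x; rcases hs with rfl | rfl <;> ring
  have h := Pool.Agent.H499R2.CO.side_ncard hs {x : ℤ | s * x ≡ a [ZMOD q] ∧ x ∈ S} N
  unfold MP_edb5be_nt.AlmostAllClasses.count count
  refine h.trans ?_
  congr 1
  ext n
  simp only [Set.mem_ofPred_eq, hss]

theorem missed_eq {s : ℤ} (hs : s = 1 ∨ s = -1) (S : Set ℤ) (X Q : ℕ) :
    MP_edb5be_nt.AlmostAllClasses.Missed S s X Q = Missed s S X Q := by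
  have hss : ∀ x : ℤ, s * (s * x) = x := by intro x; rcases hs with rfl | rfl <;> ring
  ext ⟨q, a⟩
  unfold MP_edb5be_nt.AlmostAllClasses.Missed Missed
  simp only [Set.mem_ofPred_eq]
  refine and_congr_right fun _ => and_congr_right fun _ => and_congr_right fun _ => ?_
  constructor
  · intro h n hn1 hnX hna hnS
    exact h (s * n) hnS (by rw [hss]; exact_mod_cast hn1) (by rw [hss]; exact_mod_cast hnX)
      (by rw [hss]; exact hna)
  · intro h x hx h0 hX ha
    have e : ((s * x).toNat : ℤ) = s * x := Int.toNat_of_nonneg h0.le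
    refine h (s * x).toNat (by omega) (by omega) (by rw [e]; exact ha) ?_
    rw [e, hss]; exact hx

/-- **The theorem.** Let `S` be a set of integers which is completely invariant under `f₀`, for example
(0) the set of the integers in wandering domains of `f₀` or the set of the integers in the basin of the
superattracting cycle of an integer.
(1) For every `δ > 0` the set `S` has the level of distribution `√N exp ((log N) ^ (1 / 2 - δ))` for
arbitrary residue classes: the sum over the moduli `Q ≤ q < 2 Q` up to this level of the differences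
between the number of the `1 ≤ n ≤ M q` in `S` in the class of `a q` and the `q`-th part of the number of
the `1 ≤ n ≤ M q` in `S` is at most `ε N`, for all `M q ≤ N` and `a q`, uniformly in `S`.
(2) The divisor function at `n + k` has the expected mean `log N` over the `1 ≤ n ≤ N` in `S`, up to
`ε N log N`, uniformly in `S` and `k ≤ N`.
(3) For `s = 1` and `s = -1` the variance of the numbers of the `1 ≤ n ≤ N` with `s n ∈ S` over all
residue classes to all moduli `Q ≤ q < 2 Q` is at most `ε N ^ 2 + 288 Q N`, uniformly in `S` and `Q`.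
(4) If an integer of sign `s` lies in a wandering domain, then for every `ε > 0` there is `K` such that
for all but `ε Q ^ 2` of the pairs `(q, a)`, `Q ≤ q < 2 Q`, `0 ≤ a < q`, some `n ≤ K Q`, `n ≡ a`
modulo `q`, is such that `s n` lies in a wandering domain.
(5) The question: no integer lies in a wandering domain of `f₀` if and only if for both signs `s` there
is `c > 0` such that for all `K` and arbitrarily large `Q` there are at least `c Q ^ 2` pairs `(q, a)`,
`Q ≤ q < 2 Q`, `0 ≤ a < q`, such that the (at most `K`) integers `s n`, `n ≤ K Q`, `n ≡ a` modulo `q`,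
do not lie in wandering domains. -/
theorem result :
    -- (0) the invariant sets in question
    (Invariant WanderingIntegers ∧
      ∀ (a : ℤ) (p : ℕ), 0 < p → f₀^[p] (a : ℂ) = a → Invariant (BasinIntegers a p)) ∧
    -- (1) the level of distribution
    (∀ δ : ℝ, 0 < δ → ∀ ε : ℝ, 0 < ε → ∃ N₀ : ℕ, ∀ S : Set ℤ, Invariant S → ∀ N : ℕ, N₀ ≤ N →
      ∀ Q : ℕ, 1 ≤ Q → (Q : ℝ) ≤ √(N : ℝ) * Real.exp (Real.log N ^ (1 / 2 - δ)) →
        ∀ (M : ℕ → ℕ) (a : ℕ → ℤ), (∀ q, M q ≤ N) →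
        ∑ q ∈ Finset.Ico Q (2 * Q), |(count 1 S (M q) q (a q) : ℝ) - count 1 S (M q) 1 0 / q| ≤ ε * N) ∧
    -- (2) the Titchmarsh divisor problem
    (∀ ε : ℝ, 0 < ε → ∃ N₀ : ℕ, ∀ S : Set ℤ, Invariant S → ∀ N : ℕ, N₀ ≤ N → ∀ k : ℕ, k ≤ N →
      |(∑ᶠ n ∈ {n : ℕ | 1 ≤ n ∧ n ≤ N ∧ (n : ℤ) ∈ S}, ((n + k).divisors.card : ℝ)) -
        count 1 S N 1 0 * Real.log N| ≤ ε * (N * Real.log N)) ∧
    -- (3) the variance over all residue classes
    (∀ ε : ℝ, 0 < ε → ∃ N₀ : ℕ, ∀ S : Set ℤ, Invariant S → ∀ s : ℤ, s = 1 ∨ s = -1 →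
      ∀ N : ℕ, N₀ ≤ N → ∀ Q : ℕ, 1 ≤ Q →
        ∑ q ∈ Finset.Ico Q (2 * Q), ∑ a ∈ Finset.range q,
          ((count s S N q (a : ℤ) : ℝ) - count s S N 1 0 / q) ^ 2 ≤ ε * N ^ 2 + 288 * Q * N) ∧
    -- (4) small integers in wandering domains in almost all residue classes
    (∀ s : ℤ, s = 1 ∨ s = -1 → (∃ x ∈ WanderingIntegers, 0 < s * x) → ∀ ε : ℝ, 0 < ε →
      ∃ K : ℕ, ∃ Q₀ : ℕ, ∀ Q : ℕ, Q₀ ≤ Q →
        ((Missed s WanderingIntegers (K * Q) Q).ncard : ℝ) ≤ ε * Q ^ 2) ∧
    -- (5) the question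
    ((∀ n : ℤ, ¬ IsWanderingDomain f₀ (FatouComponent f₀ n)) ↔
      ∀ s : ℤ, s = 1 ∨ s = -1 → ∃ c : ℝ, 0 < c ∧ ∀ K Q₀ : ℕ, ∃ Q : ℕ, Q₀ ≤ Q ∧
        c * Q ^ 2 ≤ ((Missed s WanderingIntegers (K * Q) Q).ncard : ℝ)) := by
  have hsmall : ∀ s : ℤ, s = 1 ∨ s = -1 → (∃ x ∈ WanderingIntegers, 0 < s * x) → ∀ ε : ℝ, 0 < ε →
      ∃ K : ℕ, ∃ Q₀ : ℕ, ∀ Q : ℕ, Q₀ ≤ Q →
        ((Missed s WanderingIntegers (K * Q) Q).ncard : ℝ) ≤ ε * Q ^ 2 := by
    intro s hs hne ε hε
    obtain ⟨K, Q₀, h⟩ :=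
      MP_edb5be_nt.AlmostAllClasses.missed_small (inv_T wandering_inv) hs hne hε
    refine ⟨K, Q₀, fun Q hQ => ?_⟩
    rw [← missed_eq hs]
    exact h Q hQ
  obtain ⟨hb1, hb2, -, -⟩ := MP_2d22f3_nt.BombieriVinogradov.result
  obtain ⟨ha1, -, -⟩ := MP_edb5be_nt.AlmostAllClasses.result
  refine ⟨⟨wandering_inv, fun a p hp ha => basin_inv hp ha⟩, ?_, ?_, ?_, hsmall, ?_⟩
  · intro δ hδ ε hε
    obtain ⟨N₀, h⟩ := hb1 δ hδ ε hε
    refine ⟨N₀, fun S hS N hN Q hQ hQl M a hM => ?_⟩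
    have h1 := h _ (inv_nat hS) N hN Q hQ hQl M a hM
    simp only [count_one_eq] at h1
    exact h1
  · intro ε hε
    obtain ⟨N₀, h⟩ := hb2 ε hε
    refine ⟨N₀, fun S hS N hN k hk => ?_⟩
    have h1 := h _ (inv_nat hS) N hN k hk
    rw [count_one_eq] at h1
    exact h1
  · intro ε hε
    obtain ⟨N₀, h⟩ := ha1 ε hε
    refine ⟨N₀, fun S hS s hs N hN Q hQ => ?_⟩
    have h1 := h S (inv_T hS) s hs N hN Q hQ
    simp only [count_eq hs] at h1
    exact h1
  · constructor
    · intro hall s hs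
      refine ⟨1, one_pos, fun K Q₀ => ⟨Q₀, le_rfl, ?_⟩⟩
      have e1 : Missed s WanderingIntegers (K * Q₀) Q₀ =
          {p : ℕ × ℕ | Q₀ ≤ p.1 ∧ p.1 < 2 * Q₀ ∧ p.2 < p.1} := by
        ext ⟨q, a⟩
        constructor
        · rintro ⟨h1, h2, h3, _⟩
          exact ⟨h1, h2, h3⟩
        · rintro ⟨h1, h2, h3⟩
          exact ⟨h1, h2, h3, fun n _ _ _ => hall (s * n)⟩
      rw [e1, one_mul]
      exact_mod_cast MP_edb5be_nt.AlmostAllClasses.pairs_card Q₀
    · intro hmiss
      refine none_of_sides fun s hs x hx hxW => ?_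
      obtain ⟨c, hc, h1⟩ := hmiss s hs
      obtain ⟨K, Q₀, h2⟩ := hsmall s hs ⟨x, hxW, hx⟩ (c / 2) (by positivity)
      obtain ⟨Q, hQ, h3⟩ := h1 K (max Q₀ 1)
      have h4 := h2 Q ((le_max_left _ _).trans hQ)
      have hQ1 : 1 ≤ Q := (le_max_right _ _).trans hQ
      have hQ0 : (0 : ℝ) < Q := by exact_mod_cast hQ1
      have : 0 < c * (Q : ℝ) ^ 2 := by positivity
      linarith

end Pool.Agent.Results.MP_071ec9_an.ResidueClasses
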