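import Pool.Agent.Q163.WD.Base
import Pool.Agent.Results.MP_d02c56_nt.WaringProblem

set_option autoImplicit false

/-!
# Waring's problem with one summand in a wandering domain or a basin of `f₀`

Let `S` be a set of integers which is completely invariant under the entire function `f₀` of Letherman,
Schleicher and Wood: the integers in wandering domains, or in the basin of an integer cycle. If `S`
contains an integer of sign `s`, then for each `k` every large integer is a sum of `|x|`, where `x ∈ S`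
has sign `s`, and of `r(k)` positive `k`-th powers. More generally for every nonconstant polynomial `P`
and `r ≥ r₀(P)` the number of the representations of EVERY large `n` as a sum of `|x|`, `x ∈ S` of sign
`s`, and of `r` values of `P` is asymptotically the density of `S` times the number of these
representations with arbitrary `x`; for almost all `n` one value of `P` suffices.
-/

namespace Pool.Agent.Results.MP_071ec9_an.WaringProblem

open Filter Topology
open Pool.Agent.H384R2.Fatou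

/-- The entire function of Letherman, Schleicher and Wood; `f₀ n = T n` for every integer `n`, where
`T` is the `3x+1` function. -/
noncomputable def f₀ (z : ℂ) : ℂ :=
  z / 2 + (z + 1 / 2) * ((1 - Complex.cos (Real.pi * z)) / 2) +
    1 / Real.pi * (1 / 2 - Complex.cos (Real.pi * z)) * Complex.sin (Real.pi * z)

/-- The set `S` of integers is completely invariant under `f₀`: an integer `n` is in `S` if and only if
`f₀ n` is. -/
def Invariant (S : Set ℤ) : Prop := ∀ n m : ℤ, f₀ (n : ℂ) = m → (n ∈ S ↔ m ∈ S)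

/-- The integers whose Fatou component is a wandering domain of `f₀`. -/
def WanderingIntegers : Set ℤ := {n | IsWanderingDomain f₀ (FatouComponent f₀ n)}

/-- The integers `n` in the Fatou set whose component is not a wandering domain and is attracted to
the cycle of the integer `a`, of period (dividing) `p`: all points `z` of the component satisfy
`f₀^(k+pm)(z) → a` as `m → ∞`, for some `k`. -/
def BasinIntegers (a : ℤ) (p : ℕ) : Set ℤ :=
  {n | (n : ℂ) ∈ FatouSet f₀ ∧ ¬ IsWanderingDomain f₀ (FatouComponent f₀ n) ∧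
    ∃ k : ℕ, ∀ z ∈ FatouComponent f₀ n,
      Tendsto (fun m : ℕ => f₀^[k + p * m] z) atTop (𝓝 (a : ℂ))}

/-- Among the integers of sign `s` the set `S` has natural density `δ`. -/
def HasDensity (s : ℤ) (S : Set ℤ) (δ : ℝ) : Prop :=
  Tendsto (fun N : ℕ => ({n : ℤ | 0 < s * n ∧ s * n ≤ N ∧ n ∈ S}.ncard : ℝ) / N) atTop (𝓝 δ)

/-- The number of the `r`-tuples `m` with `1 ≤ m j ≤ L j` such that the difference `d` of `n` and the
sum of the `P j (m j)` is positive and `s d` is in `S`; so `n` is the sum of the `P j (m j)` and of `|x|`,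
where `x = s d` is an element of `S` of sign `s`. -/
noncomputable def reps (s : ℤ) (S : Set ℤ) (n : ℤ) {r : ℕ} (P : Fin r → Polynomial ℤ) (L : Fin r → ℕ) : ℕ :=
  {m : ∀ j, Fin (L j) | 0 < n - ∑ j, (P j).eval (((m j : ℕ) + 1 : ℕ) : ℤ) ∧
    s * (n - ∑ j, (P j).eval (((m j : ℕ) + 1 : ℕ) : ℤ)) ∈ S}.ncard

/-- The number of the `r`-tuples of positive integers `m j` with `|P (m j)| ≤ n` for which the
difference `d` of `n` and the sum of the `P (m j)` is positive and `s d` is in `S`. -/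
noncomputable def polyReps (s : ℤ) (S : Set ℤ) (n : ℕ) (P : Polynomial ℤ) (r : ℕ) : ℕ :=
  {m : Fin r → ℕ | (∀ j, 1 ≤ m j ∧ |P.eval (m j : ℤ)| ≤ n) ∧ 0 < (n : ℤ) - ∑ j, P.eval (m j : ℤ) ∧
    s * ((n : ℤ) - ∑ j, P.eval (m j : ℤ)) ∈ S}.ncard

/-- The number of the `1 ≤ m ≤ L` such that `s (n - P m)` is in `S`. -/
noncomputable def count (s : ℤ) (S : Set ℤ) (n : ℤ) (P : Polynomial ℤ) (L : ℕ) : ℕ :=
  {i : Fin L | s * (n - P.eval (((i : ℕ) + 1 : ℕ) : ℤ)) ∈ S}.ncard

/-! ### proofs -/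

open Pool.Agent.Q163.WD

theorem wandering_inv : Invariant WanderingIntegers := WI_cinv

theorem basin_inv {a : ℤ} {p : ℕ} (hp : 0 < p) (ha : f₀^[p] (a : ℂ) = a) :
    Invariant (BasinIntegers a p) := BI_cinv hp ha

theorem inv_W {S : Set ℤ} (hS : Invariant S) : MP_d02c56_nt.WaringProblem.Invariant S :=
  fun x => cinv_C hS x

/-- **The theorem.**
(0) The set of the integers in wandering domains of `f₀` and the sets of the integers in the basins of the
integer cycles are completely invariant under `f₀`.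
(1) For every finite set `F` of nonconstant polynomials with integer coefficients there is `r₀` such that
for `r ≥ r₀`, `s = 1` or `s = -1`, all `B` and `ε > 0`, if `N` is large, for every completely invariant set
`S`, of density `δ` among the integers of sign `s` (the density exists), all `P 1, ..., P r` in `F`, all
`L 1, ..., L r` with `|P j m| ≤ N` for `1 ≤ m ≤ L j` and `N ≤ B (L j) ^ deg (P j)`, and EVERY integer `n`
with `|n| ≤ B N`, the number of the representations of `n` as a sum of `|x|`, `x ∈ S` of sign `s`, and of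
`P 1 (m 1), ..., P r (m r)`, `1 ≤ m j ≤ L j`, is `δ` times the number of these representations in which
`x` is any integer of sign `s`, up to `ε L 1 ⋯ L r`.
(2) For every `k` there is `r` such that, if a completely invariant set `S` contains an integer of sign
`s`, every large integer is a sum of `|x|`, `x ∈ S` of sign `s`, and of `r` positive `k`-th powers.
(3) For every nonconstant `P`, all `B` and `ε > 0`, if `N` is large, then for every completely invariant
set `S` of density `δ` and all `L` with `|P m| ≤ N` for `1 ≤ m ≤ L` and `N ≤ B L ^ deg P`, for all but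
`ε N` of the `N < n ≤ 2 N` the number of the `m ≤ L` with `s (n - P m) ∈ S` is `δ L` up to `ε L`.
(4) THE QUESTION. For every nonconstant `P` there is `r₀` such that for `r ≥ r₀`: if for both signs `s`
there are infinitely many `n` with only `o(n ^ (r / deg P))` tuples of positive integers `m j`,
`|P (m j)| ≤ n`, for which `d = n - P (m 1) - ... - P (m r)` is positive and `s d` lies in a wandering
domain of `f₀`, then no integer lies in a wandering domain. -/
theorem result :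
    (Invariant WanderingIntegers ∧
      ∀ (a : ℤ) (p : ℕ), 0 < p → f₀^[p] (a : ℂ) = a → Invariant (BasinIntegers a p)) ∧
    (∀ F : Finset (Polynomial ℤ), (∀ P ∈ F, 1 ≤ P.natDegree) → ∃ r₀ : ℕ, ∀ r : ℕ, r₀ ≤ r →
      ∀ s : ℤ, (s = 1 ∨ s = -1) → ∀ (B : ℕ) (ε : ℝ), 0 < ε → ∃ N₀ : ℕ, ∀ S : Set ℤ, Invariant S →
      ∃ δ : ℝ, HasDensity s S δ ∧ ∀ N : ℕ, N₀ ≤ N → ∀ P : Fin r → Polynomial ℤ, (∀ j, P j ∈ F) →
      ∀ L : Fin r → ℕ, (∀ j, ∀ m : ℕ, 1 ≤ m → m ≤ L j → |(P j).eval (m : ℤ)| ≤ N) →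
      (∀ j, N ≤ B * L j ^ (P j).natDegree) → ∀ n : ℤ, |n| ≤ B * N →
        |(reps s S n P L : ℝ) - δ * reps s Set.univ n P L| ≤ ε * ∏ j, (L j : ℝ)) ∧
    (∀ k : ℕ, 1 ≤ k → ∃ r : ℕ, 1 ≤ r ∧ ∀ s : ℤ, (s = 1 ∨ s = -1) → ∀ S : Set ℤ, Invariant S →
      (∃ x ∈ S, 0 < s * x) → ∃ n₀ : ℕ, ∀ n : ℕ, n₀ ≤ n → ∃ x ∈ S, 0 < s * x ∧ ∃ m : Fin r → ℕ,
        (∀ j, 1 ≤ m j) ∧ (n : ℤ) = |x| + ∑ j, (m j : ℤ) ^ k) ∧
    (∀ s : ℤ, (s = 1 ∨ s = -1) → ∀ P : Polynomial ℤ, 1 ≤ P.natDegree → ∀ (B : ℕ) (ε : ℝ), 0 < ε →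
      ∃ N₀ : ℕ, ∀ S : Set ℤ, Invariant S → ∃ δ : ℝ, HasDensity s S δ ∧
        ∀ N : ℕ, N₀ ≤ N → ∀ L : ℕ, (∀ m : ℕ, 1 ≤ m → m ≤ L → |P.eval (m : ℤ)| ≤ N) →
        N ≤ B * L ^ P.natDegree →
          ({n : ℕ | N < n ∧ n ≤ 2 * N ∧ ε * L < |(count s S n P L : ℝ) - δ * L|}.ncard : ℝ) ≤ ε * N) ∧
    (∀ P : Polynomial ℤ, 1 ≤ P.natDegree → ∃ r₀ : ℕ, ∀ r : ℕ, r₀ ≤ r →
      ∀ ψ : ℕ → ℝ, Tendsto ψ atTop (𝓝 0) →
        (∀ s : ℤ, (s = 1 ∨ s = -1) → ∃ᶠ n : ℕ in atTop,
          (polyReps s WanderingIntegers n P r : ℝ) ≤ ψ n * (n : ℝ) ^ ((r : ℝ) / P.natDegree)) →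
        ∀ x : ℤ, ¬ IsWanderingDomain f₀ (FatouComponent f₀ x)) := by
  obtain ⟨-, h2, h3, h4, h5, -⟩ := MP_d02c56_nt.WaringProblem.result
  refine ⟨⟨wandering_inv, fun a p hp ha => basin_inv hp ha⟩, ?_, ?_, ?_, ?_⟩
  · intro F hF
    obtain ⟨r₀, h⟩ := h2 F hF
    refine ⟨r₀, fun r hr s hs B ε hε => ?_⟩
    obtain ⟨N₀, hN⟩ := h r hr s hs B ε hε
    exact ⟨N₀, fun S hS => hN S (inv_W hS)⟩
  · intro k hk
    obtain ⟨r, hr, h⟩ := h3 k hk
    exact ⟨r, hr, fun s hs S hS => h s hs S (inv_W hS)⟩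
  · intro s hs P hP B ε hε
    obtain ⟨h41, h42⟩ := h4 s hs
    obtain ⟨t, K, hsp⟩ := h42 P hP
    obtain ⟨N₀, hN⟩ := h41 t (K * B) ε hε
    refine ⟨max N₀ 1, fun S hS => ?_⟩
    obtain ⟨δ, hδ, h⟩ := hN S (inv_W hS)
    refine ⟨δ, hδ, fun N hN' L hL hB => ?_⟩
    have hN1 : N₀ ≤ N := (le_max_left _ _).trans hN'
    have hN2 : 1 ≤ N := (le_max_right _ _).trans hN'
    refine h N hN1 L (MP_d02c56_nt.WaringProblem.vals P L) (fun i => ?_) (hsp B L N hN2 hB)
    exact hL ((i : ℕ) + 1) (by omega) (by omega)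
  · intro P hP
    obtain ⟨r₀, h⟩ := h5 P hP
    refine ⟨r₀, fun r hr ψ hψ hrare => ?_⟩
    refine none_of_sides fun s hs x hx hxW => ?_
    obtain ⟨κ, hκ, n₀, hn⟩ := (h r hr).1 s hs WanderingIntegers (inv_W wandering_inv) ⟨x, hxW, hx⟩
    have hev : ∀ᶠ n : ℕ in atTop, ψ n < κ ∧ n₀ ≤ n ∧ 1 ≤ n := by
      filter_upwards [hψ.eventually (gt_mem_nhds hκ), eventually_ge_atTop n₀, eventually_ge_atTop 1]
        with n a1 a2 a3
      exact ⟨a1, a2, a3⟩
    obtain ⟨n, hn1, hn2, hn3, hn4⟩ := ((hrare s hs).and_eventually hev).exists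
    have hpos : (0 : ℝ) < (n : ℝ) ^ ((r : ℝ) / P.natDegree) := by
      apply Real.rpow_pos_of_pos
      exact_mod_cast hn4
    have h6 := hn n hn3
    have h7 : ψ n * (n : ℝ) ^ ((r : ℝ) / P.natDegree) < κ * (n : ℝ) ^ ((r : ℝ) / P.natDegree) :=
      mul_lt_mul_of_pos_right hn2 hpos
    exact absurd (h6.trans hn1) (not_le.2 h7)

end Pool.Agent.Results.MP_071ec9_an.WaringProblem
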